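import Pool.Agent.Hhelper17.AM.Content5
import Pool.Agent.Hhelper96.UB.Final

/-!
Approximation of translation invariant marginals from the truncated cluster sum: bond dimension
`exp (C / ε)`.
-/

set_option autoImplicit false
set_option linter.unusedSectionVars false

open scoped BigOperators Topology ComplexOrder
open Matrix Filter MeasureTheory
open Pool.Agent.Hhelper17.AM

namespace Pool.Agent.Hhelper96.PEPS

section core2

variable {d : ℕ}

/-- The approximation of a translation invariant marginal, with all parameters. -/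
theorem core_new5 (r κ : ℕ) (hr : 1 ≤ r) (hd : 2 ≤ d) (hE : PowNet d r κ) :
    ∃ (τ C : ℝ), 0 < τ ∧ 0 ≤ C ∧
      ∀ (M N m : ℕ) [NeZero M] [NeZero N], 3 ≤ m → N * N ≤ 2 ^ m →
      2 * r ≤ N → ∀ (R : Finset (ℤ × ℤ)) (a b : ℤ),
      (∀ p ∈ R, a ≤ p.1 ∧ p.1 < a + r ∧ b ≤ p.2 ∧ p.2 < b + r) →
      ∀ (q : ℕ), 1 ≤ q →
      ∃ D : ℕ, D = (M * N + 3) * ((M * N + 3) * ((κ ^ (m + q)) ^ 3 + 1)) ∧
      ∀ (L₁ : ℕ) [NeZero L₁], N ≤ L₁ → ∀ (ψ : (Site L₁ → Fin d) → ℂ), ψ ≠ 0 →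
      (∀ w, reduced L₁ R w ψ = reduced L₁ R 0 ψ) →
      ∃ A : Fin d → Fin D → Fin D → Fin D → Fin D → ℂ,
        ∀ (L : ℕ) [NeZero L], (M * N + 2) ^ 2 ≤ L → (M * N + 3) * R.card < L →
        pepsVec L A ≠ 0 ∧ ∀ v, traceNorm (reduced L R v (pepsVec L A) - reduced L₁ R 0 ψ) ≤
          4 * ((r + 2 : ℝ) / N) + √(Fintype.card (R → Fin d)) *
            (4 * (8 * r / N + C / 2 ^ m + Real.log d / (2 * q * τ)) + 2 / M) := by
  classical
  obtain ⟨τ, C, hτ, hC, hcont⟩ := low_content5 (d := d) r κ hr (by omega) hE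
  refine ⟨τ, C, hτ, hC, ?_⟩
  intro M N m _ _ hm3 hNm h2rN R a b hR q hq
  refine ⟨Fintype.card (HidY (M * N) (M * N) ((Fin (κ ^ (m + q))) ×
    (Fin (κ ^ (m + q))) ×
    (Fin (κ ^ (m + q))))), ?_, ?_⟩
  · rw [card_hidY]
    simp only [Fintype.card_prod, Fintype.card_fin]
    ring
  intro L₁ _ hNL ψ hψ hTI
  have hrN' : r ≤ N := by omega
  have hzo : (⟨0, by omega⟩ : Fin d) ≠ ⟨1, by omega⟩ := by
    intro h
    simp only [Fin.mk.injEq] at h
    omega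
  obtain ⟨ρ, hρd⟩ : ∃ ρ, ρ = reduced L₁ R 0 ψ := ⟨_, rfl⟩
  have hρ := posSemidef_reduced (hrN'.trans hNL) R a b hR 0 hψ
  rw [← hρd] at hρ ⊢
  have hNpos : (0 : ℝ) < N := by exact_mod_cast NeZero.pos N
  have hMpos : (0 : ℝ) < M := by exact_mod_cast NeZero.pos M
  have hci := card_inn hr hrN'
  obtain ⟨c, hc⟩ : ∃ c : ℝ, c = ((inn N r).card : ℝ) := ⟨_, rfl⟩
  have hcr : c + r = N + 1 := by rw [hc]; exact_mod_cast hci
  have h2rN' : (2 : ℝ) * r ≤ N := by exact_mod_cast h2rN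
  have hr' : (1 : ℝ) ≤ r := by exact_mod_cast hr
  have hcpos : 0 < c := by linarith
  have hc2 : (N : ℝ) ≤ 2 * c := by linarith
  have hlogd : 0 ≤ Real.log d := Real.log_nonneg (by exact_mod_cast (by omega : 1 ≤ d))
  have hqpos : (0 : ℝ) < q := by exact_mod_cast hq
  obtain ⟨η, hη⟩ : ∃ η : ℝ, η = 4 * (8 * r / N + C / 2 ^ m + Real.log d / (2 * q * τ)) :=
    ⟨_, rfl⟩
  have hη0 : 0 ≤ η := by rw [hη]; positivity
  -- the averaged marginal of a label network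
  obtain ⟨av, hav⟩ : ∃ av : (Site N → Fin d → (Fin (κ ^ (m + q))) →
        (Fin (κ ^ (m + q))) →
        (Fin (κ ^ (m + q))) → ℂ) → Matrix (R → Fin d) (R → Fin d) ℂ,
    av = fun W => (((c ^ 2)⁻¹ : ℝ) : ℂ) • ∑ k ∈ inn N r, ∑ l ∈ inn N r,
      reduced N R (posn N a b k l) (netT W) := ⟨_, rfl⟩
  have hcinv : (0 : ℂ) ≤ (((c ^ 2)⁻¹ : ℝ) : ℂ) := by
    rw [Complex.zero_le_real]; positivity
  have hcne : ((c : ℝ) : ℂ) ≠ 0 := by exact_mod_cast hcpos.ne'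
  have havS : ∀ W, netT W ≠ 0 → (av W).PosSemidef ∧ (av W).trace = 1 := by
    intro W hW
    constructor
    · rw [hav]
      exact (Matrix.posSemidef_sum _ (fun k _ => Matrix.posSemidef_sum _
        (fun l _ => (posSemidef_reduced hrN' R a b hR _ hW).1))).smul hcinv
    · rw [hav]
      simp only
      rw [Matrix.trace_smul, Matrix.trace_sum]
      simp only [Matrix.trace_sum]
      rw [Finset.sum_congr rfl (fun k _ => Finset.sum_congr rfl
        (fun l _ => (posSemidef_reduced hrN' R a b hR (posn N a b k l) hW).2))]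
      simp only [Finset.sum_const, nsmul_eq_mul, mul_one, smul_eq_mul]
      rw [← Complex.ofReal_natCast, ← hc]
      push_cast
      field_simp
  obtain ⟨T, hT⟩ : ∃ T : Matrix (R → Fin d) (R → Fin d) ℂ → Prop,
    T = fun X => ∃ W, netT W ≠ 0 ∧ X = av W := ⟨_, rfl⟩
  -- greedy choice
  obtain ⟨X, hX, hXs⟩ := greedy T (by
      rintro X hX
      rw [hT] at hX
      obtain ⟨W, hW, rfl⟩ := hX
      exact havS W hW) ρ hρ.1 hρ.2 η hη0 (by
      intro K hK hK1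
      obtain ⟨W, hW, hWE⟩ := hcont N m (by omega) hm3 hNm R a b hR K hK hK1 q hq L₁ hNL ψ hψ ρ
        (fun v => by rw [hρd]; exact hTI v)
      refine ⟨av W, by rw [hT]; exact ⟨W, hW, rfl⟩, ?_⟩
      have hb1 : ∀ v, -1 ≤ enf K (reduced N R v (netT W)) := by
        intro v
        have h1 := posSemidef_reduced hrN' R a b hR v hW
        exact (abs_le.1 (abs_enf_le K _ hK1 h1.1 h1.2)).1
      have hb2 := (abs_le.1 (abs_enf_le K ρ hK1 hρ.1 hρ.2)).2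
      have hsum := sum_inn_le hr hrN' a b (fun v => enf K (reduced N R v (netT W))) hb1
      rw [← hc] at hsum
      rw [hav]
      simp only
      rw [enf_smul', enf_sum]
      simp only [enf_sum]
      rw [inv_mul_le_iff₀ (by positivity)]
      have e1 : c = N + 1 - r := by linarith
      have e2 : (N : ℝ) ^ 2 - c ^ 2 ≤ 2 * r * N := by
        rw [e1]; nlinarith
      have e3 : (0 : ℝ) ≤ (N : ℝ) ^ 2 - c ^ 2 := by
        rw [e1]; nlinarith
      have e4 : ((N : ℝ) ^ 2 - c ^ 2) * enf K ρ ≤ (N : ℝ) ^ 2 - c ^ 2 := by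
        nlinarith
      have e5 : 8 * r * N + C * (N : ℝ) ^ 2 / 2 ^ m +
          (N : ℝ) ^ 2 * Real.log d / (2 * q * τ) ≤ c ^ 2 * η := by
        have e6 : 8 * r * N + C * (N : ℝ) ^ 2 / 2 ^ m +
            (N : ℝ) ^ 2 * Real.log d / (2 * q * τ) = (N : ℝ) ^ 2 / 4 * η := by
          rw [hη]; field_simp
        rw [e6]
        apply mul_le_mul_of_nonneg_right _ hη0
        nlinarith
      linarith) (M * M)
  choose Wf hWf hXW using fun i => (by have := hX i; rw [hT] at this; exact this :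
    ∃ W, netT W ≠ 0 ∧ X i = av W)
  obtain ⟨δ, hδ⟩ : ∃ δ : ℝ, δ = √(Fintype.card (R → Fin d)) * (η + 2 / M) := ⟨_, rfl⟩
  have hδ0 : 0 ≤ δ := by rw [hδ]; positivity
  obtain ⟨A, hA⟩ := core_cells hzo M N r hr hrN' R a b hR
    (fun i => Wf (finProdFinEquiv i)) (fun i => hWf _) ρ hρ.1 hρ.2 δ hδ0 (by
      have h1 : ∑ i : Fin M × Fin M, ∑ k ∈ inn N r, ∑ l ∈ inn N r,
          (reduced N R ((((k : ℕ) : ZMod N) - (a : ZMod N)), (((l : ℕ) : ZMod N) - (b : ZMod N)))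
            (netT (Wf (finProdFinEquiv i))) - ρ) =
          ((c ^ 2 : ℝ) : ℂ) • ∑ i : Fin (M * M), (X i - ρ) := by
        rw [← Equiv.sum_comp finProdFinEquiv (fun i : Fin (M * M) => (X i - ρ)), Finset.smul_sum]
        refine Finset.sum_congr rfl (fun i _ => ?_)
        simp only [Finset.sum_sub_distrib, Finset.sum_const]
        rw [smul_sub, hXW, hav]
        simp only
        have e7 : ∀ Z : Matrix (R → Fin d) (R → Fin d) ℂ,
            ((c ^ 2 : ℝ) : ℂ) • (((c ^ 2)⁻¹ : ℝ) : ℂ) • Z = Z := by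
          intro Z
          rw [smul_smul, ← Complex.ofReal_mul, mul_inv_cancel₀ (by positivity),
            Complex.ofReal_one, one_smul]
        have e8 : ((inn N r).card * (inn N r).card) • ρ = ((c ^ 2 : ℝ) : ℂ) • ρ := by
          rw [← Nat.cast_smul_eq_nsmul ℂ, hc]
          congr 1
          push_cast
          ring
        rw [e7, smul_smul, e8]
        rfl
      rw [h1]
      refine (traceNorm_smul_le _ _).trans ?_
      rw [Complex.norm_real, Real.norm_of_nonneg (by positivity)]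
      have h2 := traceNorm_le_hsq (∑ i : Fin (M * M), (X i - ρ))
      have h3 : √((M * M : ℕ) : ℝ) = M := by
        push_cast
        exact Real.sqrt_mul_self hMpos.le
      rw [h3] at hXs
      have h4 : traceNorm (∑ i : Fin (M * M), (X i - ρ)) ≤
          √(Fintype.card (R → Fin d)) * (η * ((M * M : ℕ) : ℝ) + 2 * M) :=
        h2.trans (mul_le_mul_of_nonneg_left hXs (Real.sqrt_nonneg _))
      calc c ^ 2 * traceNorm (∑ i : Fin (M * M), (X i - ρ))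
          ≤ c ^ 2 * (√(Fintype.card (R → Fin d)) * (η * ((M * M : ℕ) : ℝ) + 2 * M)) :=
            mul_le_mul_of_nonneg_left h4 (by positivity)
        _ = δ * ((M * (inn N r).card : ℕ) * (M * (inn N r).card : ℕ)) := by
            rw [hδ]
            push_cast
            rw [← hc]
            field_simp)
  refine ⟨A, fun L _ h1 h2 => ?_⟩
  have h3 := hA L h1 h2
  refine ⟨h3.1, fun v => (h3.2 v).trans (le_of_eq ?_)⟩
  rw [hδ, hη]

end core2

section params2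

/-- the bound of the bond dimension -/
theorem bond_le5 {κ m q MN : ℕ} {c₁ c₂ cm i : ℝ} (hi : 1 ≤ i)
    (hc₁ : 0 ≤ c₁) (hc₂ : 0 ≤ c₂) (hcm : 0 ≤ cm) (hκ : 1 ≤ κ) (hm : (m : ℝ) ≤ cm * i)
    (hq : (q : ℝ) ≤ c₁ * i) (hMN : (MN : ℝ) + 3 ≤ c₂ * i ^ 4) :
    (((MN + 3) * ((MN + 3) * ((κ ^ (m + q)) ^ 3 + 1)) : ℕ) : ℝ) ≤
      Real.exp ((2 * (c₂ + 4) + (1 + 3 * (cm + c₁) * Real.log κ)) * i) := by
  have hκ' : (1 : ℝ) ≤ κ := by exact_mod_cast hκ
  have hκpos : (0 : ℝ) < κ := by linarith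
  have hlogκ : 0 ≤ Real.log κ := Real.log_nonneg hκ'
  have h1 : (MN : ℝ) + 3 ≤ Real.exp ((c₂ + 4) * i) := by
    have e1 : c₂ ≤ Real.exp c₂ := by
      have := Real.add_one_le_exp c₂; linarith
    have e2 : i ≤ Real.exp i := by
      have := Real.add_one_le_exp i; linarith
    calc (MN : ℝ) + 3 ≤ c₂ * i ^ 4 := hMN
      _ ≤ Real.exp c₂ * (Real.exp i) ^ 4 := by
        apply mul_le_mul e1 (pow_le_pow_left₀ (by linarith) e2 4) (by positivity) (by positivity)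
      _ = Real.exp (c₂ + 4 * i) := by
        rw [← Real.exp_nat_mul, ← Real.exp_add]; norm_num
      _ ≤ Real.exp ((c₂ + 4) * i) := by
        apply Real.exp_le_exp.2
        nlinarith
  have h2 : ((κ : ℝ) ^ (m + q)) ^ 3 + 1 ≤ Real.exp ((1 + 3 * (cm + c₁) * Real.log κ) * i) := by
    have e1 : ((κ : ℝ) ^ (m + q)) ^ 3 = Real.exp (3 * ((m + q) * Real.log κ)) := by
      have e3 : (κ : ℝ) = Real.exp (Real.log κ) := (Real.exp_log hκpos).symm
      conv_lhs => rw [e3]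
      rw [← Real.exp_nat_mul, ← Real.exp_nat_mul]
      congr 1
      push_cast
      ring
    rw [e1]
    have e3 : 1 ≤ Real.exp (3 * ((m + q) * Real.log κ)) := by
      apply Real.one_le_exp
      positivity
    have e4 : (2 : ℝ) ≤ Real.exp 1 := by
      have := Real.add_one_le_exp (1 : ℝ); linarith
    calc Real.exp (3 * ((m + q) * Real.log κ)) + 1
        ≤ Real.exp 1 * Real.exp (3 * ((m + q) * Real.log κ)) := by nlinarith
      _ = Real.exp (1 + 3 * ((m + q) * Real.log κ)) := by rw [← Real.exp_add]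
      _ ≤ _ := by
        apply Real.exp_le_exp.2
        have e5 : ((m : ℝ) + q) * Real.log κ ≤ (cm + c₁) * i * Real.log κ := by
          apply mul_le_mul_of_nonneg_right _ hlogκ
          linarith
        have e6 : (1 + 3 * (cm + c₁) * Real.log κ) * i = i + 3 * ((cm + c₁) * i * Real.log κ) := by
          ring
        rw [e6]
        linarith
  have h3 : (0 : ℝ) ≤ (MN : ℝ) + 3 := by positivity
  push_cast
  calc ((MN : ℝ) + 3) * (((MN : ℝ) + 3) * (((κ : ℝ) ^ (m + q)) ^ 3 + 1))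
      ≤ Real.exp ((c₂ + 4) * i) * (Real.exp ((c₂ + 4) * i) *
        Real.exp ((1 + 3 * (cm + c₁) * Real.log κ) * i)) := by
        apply mul_le_mul h1 _ (by positivity) (by positivity)
        exact mul_le_mul h1 h2 (by positivity) (by positivity)
    _ = _ := by
        rw [← Real.exp_add, ← Real.exp_add]
        congr 1
        ring

/-- The approximation of a translation invariant marginal, with bond dimension
`exp (C / ε)`. -/
theorem core_params5 (d r κ : ℕ) (hr : 1 ≤ r) (hd : 2 ≤ d) (hκ : 1 ≤ κ)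
    (hE : PowNet d r κ) :
    ∃ C : ℝ, 0 ≤ C ∧ CoreBound d r
      (fun ε => Real.exp (C * (1 / ε))) := by
  obtain ⟨τ, C, hτ, hC, hcore⟩ := core_new5 (d := d) r κ hr hd hE
  have hd' : (2 : ℝ) ≤ d := by exact_mod_cast hd
  have hlog : 0 ≤ Real.log d := Real.log_nonneg (by linarith)
  have hr' : (1 : ℝ) ≤ r := by exact_mod_cast hr
  obtain ⟨s, hs⟩ : ∃ s : ℝ, s = √((d : ℝ) ^ (r * r)) := ⟨_, rfl⟩
  have hs1 : 1 ≤ s := by
    rw [hs, Real.one_le_sqrt]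
    exact one_le_pow₀ (by linarith)
  have hsC : 0 ≤ s * C := by positivity
  obtain ⟨c₁, hc₁⟩ : ∃ c₁ : ℝ, c₁ = 16 * s * Real.log d / τ + 2 := ⟨_, rfl⟩
  obtain ⟨b₁, hb₁⟩ : ∃ b₁ : ℝ, b₁ = 8 * (4 * (r + 2) + 32 * s * r) := ⟨_, rfl⟩
  have hb₁0 : 0 ≤ b₁ := by rw [hb₁]; positivity
  obtain ⟨k₀, hk₀⟩ : ∃ k₀ : ℕ, k₀ = ⌈32 * s * C + (r * (b₁ + 3)) ^ 2⌉₊ + 3 := ⟨_, rfl⟩
  have hk₀1 : 32 * s * C + (r * (b₁ + 3)) ^ 2 ≤ (2 : ℝ) ^ k₀ := by
    have h1 : 32 * s * C + (r * (b₁ + 3)) ^ 2 ≤ (k₀ : ℝ) := by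
      rw [hk₀]
      push_cast
      have := Nat.le_ceil (32 * s * C + (r * (b₁ + 3)) ^ 2)
      linarith
    have h2 : (k₀ : ℝ) ≤ (2 : ℝ) ^ k₀ := by
      have := (Nat.lt_two_pow_self (n := k₀)).le
      exact_mod_cast this
    linarith
  have hk₀' : 32 * s * C ≤ (2 : ℝ) ^ k₀ := by nlinarith [sq_nonneg ((r : ℝ) * (b₁ + 3))]
  have hk₀'' : (r * (b₁ + 3)) ^ 2 ≤ (2 : ℝ) ^ k₀ := by
    have : 0 ≤ 32 * s * C := by positivity
    linarith
  obtain ⟨cS, hcS⟩ : ∃ cS : ℝ, cS = r := ⟨_, rfl⟩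
  have hcS0 : 0 ≤ cS := by rw [hcS]; positivity
  obtain ⟨cm, hcm⟩ : ∃ cm : ℝ, cm = k₀ + 4 := ⟨_, rfl⟩
  have hcm0 : 0 ≤ cm := by rw [hcm]; positivity
  obtain ⟨c₂, hc₂⟩ : ∃ c₂ : ℝ, c₂ = (16 * s + 2) * (cS * (b₁ + 3)) + 3 := ⟨_, rfl⟩
  have hc₁0 : 0 ≤ c₁ := by rw [hc₁]; positivity
  have hc₂0 : 0 ≤ c₂ := by rw [hc₂]; positivity
  have hlogκ : 0 ≤ Real.log κ := Real.log_nonneg (by exact_mod_cast hκ)
  refine ⟨2 * (4 * c₂ + 4) + (1 + 3 * (2 * cm + c₁) * Real.log κ), by positivity, ?_⟩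
  intro ε hε hε1
  have hlog2 : 0 < Real.log 2 := Real.log_pos (by norm_num)
  obtain ⟨ℓ, hℓ⟩ : ∃ ℓ : ℝ, ℓ = Real.log (2 / ε) / Real.log 2 := ⟨_, rfl⟩
  obtain ⟨i, hi⟩ : ∃ i : ℝ, i = 1 / ε := ⟨_, rfl⟩
  have hi1 : 1 ≤ i := by
    rw [hi, le_div_iff₀ hε]; linarith
  have hℓ1 : 1 ≤ ℓ := by
    rw [hℓ, le_div_iff₀ hlog2, one_mul]
    apply Real.log_le_log (by norm_num)
    rw [le_div_iff₀ hε]
    linarith
  have h2ℓ : (2 : ℝ) ^ ℓ = 2 / ε := by
    rw [Real.rpow_def_of_pos (by norm_num), hℓ, mul_div_cancel₀ _ hlog2.ne',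
      Real.exp_log (by positivity)]
  have hℓi : ℓ ≤ 2 * i := by
    have e1 : (2 : ℝ) * i = 2 / ε := by rw [hi]; ring
    rw [e1, hℓ, div_le_iff₀ hlog2]
    have e2 : 2 / ε = 2 * i := e1.symm
    have e3 : Real.log (2 / ε) = Real.log 2 + Real.log i := by
      rw [e2, Real.log_mul (by norm_num) (by linarith)]
    have e4 := Real.log_le_sub_one_of_pos (by linarith : 0 < i)
    have e5 := Real.log_two_gt_d9
    rw [e3, e2]
    nlinarith
  beta_reduce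
  rw [← hi]
  -- parameters
  obtain ⟨m, hm⟩ : ∃ m : ℕ, m = k₀ + 2 * ⌈ℓ⌉₊ := ⟨_, rfl⟩
  have h2pow : 2 / ε ≤ (2 : ℝ) ^ ⌈ℓ⌉₊ := by
    have h1 : (2 : ℝ) ^ ℓ ≤ (2 : ℝ) ^ ⌈ℓ⌉₊ := by
      rw [← Real.rpow_natCast]
      exact Real.rpow_le_rpow_of_exponent_le (by norm_num) (Nat.le_ceil ℓ)
    rwa [h2ℓ] at h1
  have hone : (1 : ℝ) ≤ (2 : ℝ) ^ ⌈ℓ⌉₊ := one_le_pow₀ (by norm_num)
  have hmpow : (2 : ℝ) ^ m = (2 : ℝ) ^ k₀ * ((2 : ℝ) ^ ⌈ℓ⌉₊ * (2 : ℝ) ^ ⌈ℓ⌉₊) := by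
    rw [hm, pow_add, two_mul, pow_add]
  have hmlow : 32 * s * C / ε ≤ (2 : ℝ) ^ m := by
    have h1 : 1 / ε ≤ (2 : ℝ) ^ ⌈ℓ⌉₊ * (2 : ℝ) ^ ⌈ℓ⌉₊ := by
      have h2 : 1 / ε ≤ 2 / ε := by
        rw [div_le_div_iff_of_pos_right hε]; norm_num
      nlinarith
    rw [hmpow]
    calc 32 * s * C / ε = 32 * s * C * (1 / ε) := by ring
      _ ≤ (2 : ℝ) ^ k₀ * ((2 : ℝ) ^ ⌈ℓ⌉₊ * (2 : ℝ) ^ ⌈ℓ⌉₊) :=
          mul_le_mul hk₀' h1 (by positivity) (by positivity)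
  have hm3 : 3 ≤ m := by rw [hm, hk₀]; omega
  have hmup : (m : ℝ) ≤ cm * ℓ := by
    have h1 : (⌈ℓ⌉₊ : ℝ) < ℓ + 1 := Nat.ceil_lt_add_one (by linarith)
    have h2 : (0 : ℝ) ≤ k₀ := by positivity
    rw [hm, hcm]
    push_cast
    nlinarith
  obtain ⟨q, hq⟩ : ∃ q : ℕ, q = ⌈16 * s * Real.log d / (ε * τ)⌉₊ + 1 := ⟨_, rfl⟩
  have hq1 : 1 ≤ q := by rw [hq]; omega
  have hqr : (0 : ℝ) < q := by exact_mod_cast hq1
  have hqlow : 16 * s * Real.log d / (ε * τ) ≤ q := by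
    rw [hq]
    push_cast
    have := Nat.le_ceil (16 * s * Real.log d / (ε * τ))
    linarith
  have hqup : (q : ℝ) ≤ c₁ * i := by
    have h1 : (⌈16 * s * Real.log d / (ε * τ)⌉₊ : ℝ) < 16 * s * Real.log d / (ε * τ) + 1 :=
      Nat.ceil_lt_add_one (by positivity)
    have h2 : 16 * s * Real.log d / (ε * τ) = 16 * s * Real.log d / τ * i := by
      rw [hi]; field_simp
    rw [hq]
    push_cast
    rw [hc₁]
    nlinarith
  obtain ⟨n₁, hn₁⟩ : ∃ n₁ : ℕ, n₁ = ⌈b₁ / ε⌉₊ + 2 := ⟨_, rfl⟩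
  obtain ⟨N, hN⟩ : ∃ N : ℕ, N = r * n₁ := ⟨_, rfl⟩
  have hNpos : 0 < N := by rw [hN]; exact Nat.mul_pos (by omega) (by omega)
  have : NeZero N := ⟨hNpos.ne'⟩
  have hNr : (0 : ℝ) < N := by exact_mod_cast hNpos
  have hNlow : b₁ / ε ≤ N := by
    have h1 := Nat.le_ceil (b₁ / ε)
    have h2 : (n₁ : ℝ) = (⌈b₁ / ε⌉₊ : ℝ) + 2 := by rw [hn₁]; push_cast; ring
    have h3 : (N : ℝ) = r * n₁ := by rw [hN]; push_cast; ring
    have h4 : (0 : ℝ) ≤ n₁ := by positivity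
    nlinarith
  obtain ⟨M, hM⟩ : ∃ M : ℕ, M = ⌈16 * s / ε⌉₊ + 1 := ⟨_, rfl⟩
  have : NeZero M := ⟨by omega⟩
  have hMr : (0 : ℝ) < M := by exact_mod_cast NeZero.pos M
  have hMlow : 16 * s / ε ≤ M := by
    have h1 := Nat.le_ceil (16 * s / ε)
    rw [hM]
    push_cast
    linarith
  have hn₁up : (n₁ : ℝ) ≤ (b₁ + 3) * i := by
    have h2 : (⌈b₁ / ε⌉₊ : ℝ) < b₁ / ε + 1 := Nat.ceil_lt_add_one (by positivity)
    have h3 : b₁ / ε = b₁ * i := by rw [hi]; ring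
    rw [hn₁]
    push_cast
    nlinarith
  have hNup : (N : ℝ) ≤ r * (b₁ + 3) * i := by
    rw [hN]
    push_cast
    rw [mul_assoc]
    exact mul_le_mul_of_nonneg_left hn₁up (by linarith)
  have hNm : N * N ≤ 2 ^ m := by
    have h1 : (N : ℝ) * N ≤ (2 : ℝ) ^ m := by
      have h2 : i ≤ (2 : ℝ) ^ ⌈ℓ⌉₊ := by
        have h3 : i ≤ 2 / ε := by
          rw [hi, div_le_div_iff_of_pos_right hε]; norm_num
        linarith
      have h4 : (N : ℝ) * N ≤ (r * (b₁ + 3) * i) * (r * (b₁ + 3) * i) :=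
        mul_le_mul hNup hNup hNr.le (by positivity)
      have h5 : i * i ≤ (2 : ℝ) ^ ⌈ℓ⌉₊ * (2 : ℝ) ^ ⌈ℓ⌉₊ :=
        mul_le_mul h2 h2 (by linarith) (by positivity)
      rw [hmpow]
      calc (N : ℝ) * N ≤ (r * (b₁ + 3) * i) * (r * (b₁ + 3) * i) := h4
        _ = (r * (b₁ + 3)) ^ 2 * (i * i) := by ring
        _ ≤ (2 : ℝ) ^ k₀ * ((2 : ℝ) ^ ⌈ℓ⌉₊ * (2 : ℝ) ^ ⌈ℓ⌉₊) :=
            mul_le_mul hk₀'' h5 (by positivity) (by positivity)
    exact_mod_cast h1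
  have hMN : ((M * N : ℕ) : ℝ) + 3 ≤ c₂ * (ℓ * i) ^ 2 := by
    have h1 : (M : ℝ) ≤ (16 * s + 2) * i := by
      have h2 : (⌈16 * s / ε⌉₊ : ℝ) < 16 * s / ε + 1 := Nat.ceil_lt_add_one (by positivity)
      have h3 : 16 * s / ε = 16 * s * i := by rw [hi]; ring
      rw [hM]
      push_cast
      nlinarith
    have h4 : (N : ℝ) ≤ cS * (b₁ + 3) * i := by rw [hcS]; exact hNup
    push_cast
    have h6 : (M : ℝ) * N ≤ ((16 * s + 2) * i) * (cS * (b₁ + 3) * i) :=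
      mul_le_mul h1 h4 hNr.le (by positivity)
    have h7 : ((16 * s + 2) * i) * (cS * (b₁ + 3) * i) =
        (16 * s + 2) * (cS * (b₁ + 3)) * i ^ 2 := by ring
    have h8 : i ^ 2 ≤ (ℓ * i) ^ 2 := by
      apply pow_le_pow_left₀ (by linarith)
      nlinarith
    have h9 : 1 ≤ (ℓ * i) ^ 2 := by
      apply one_le_pow₀
      nlinarith
    have h10 : (16 * s + 2) * (cS * (b₁ + 3)) * i ^ 2 ≤
        (16 * s + 2) * (cS * (b₁ + 3)) * (ℓ * i) ^ 2 :=
      mul_le_mul_of_nonneg_left h8 (by positivity)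
    rw [hc₂, add_mul]
    linarith
  refine ⟨N, (M * N + 2) ^ 2 + (M * N + 3) * (r * r) + 1, ?_⟩
  intro R a b hR
  have hRcard : R.card ≤ r * r := by
    have hsub : R ⊆ (Finset.Ico a (a + r)) ×ˢ (Finset.Ico b (b + r)) := by
      intro p hp
      have := hR p hp
      simp only [Finset.mem_product, Finset.mem_Ico]
      omega
    have := Finset.card_le_card hsub
    simp only [Finset.card_product, Int.card_Ico, add_sub_cancel_left, Int.toNat_natCast] at this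
    exact this
  obtain ⟨D, hD, hcore'⟩ := hcore M N m hm3 hNm
    (by rw [hN, mul_comm]; exact Nat.mul_le_mul_left r (by omega)) R a b hR q hq1
  refine ⟨D, ?_, ?_⟩
  · rw [hD]
    refine bond_le5 hi1 hc₁0 (by positivity) (by positivity) hκ (hmup.trans ?_) hqup
      (hMN.trans ?_)
    · calc cm * ℓ ≤ cm * (2 * i) := mul_le_mul_of_nonneg_left hℓi hcm0
        _ = 2 * cm * i := by ring
    · have e1 : (ℓ * i) ^ 2 ≤ (2 * i * i) ^ 2 := by
        apply pow_le_pow_left₀ (by positivity)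
        exact mul_le_mul_of_nonneg_right hℓi (by linarith)
      calc c₂ * (ℓ * i) ^ 2 ≤ c₂ * (2 * i * i) ^ 2 := mul_le_mul_of_nonneg_left e1 hc₂0
        _ = 4 * c₂ * i ^ 4 := by ring
  intro L₁ _ hNL ψ hψ hTI
  obtain ⟨B, hB⟩ := hcore' L₁ hNL ψ hψ hTI
  refine ⟨B, fun L _ hL => ?_⟩
  have hcard2 : (M * N + 3) * R.card ≤ (M * N + 3) * (r * r) := Nat.mul_le_mul_left _ hRcard
  have h1 := hB L (by omega) (by omega)
  refine ⟨h1.1, fun v => (h1.2 v).trans ?_⟩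
  have hsq : √(Fintype.card (R → Fin d)) ≤ s := by
    rw [hs]
    apply Real.sqrt_le_sqrt
    rw [Fintype.card_fun, Fintype.card_fin, Fintype.card_coe]
    push_cast
    exact pow_le_pow_right₀ (by linarith) hRcard
  have hbr : (0 : ℝ) ≤ 4 * (8 * r / N + C / 2 ^ m + Real.log d / (2 * q * τ)) + 2 / M := by
    positivity
  have e1 : 4 * ((r + 2 : ℝ) / N) + s * (4 * (8 * r / N)) ≤ ε / 8 := by
    have : 4 * ((r + 2 : ℝ) / N) + s * (4 * (8 * r / N)) = b₁ / 8 / N := by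
      rw [hb₁]; field_simp; ring
    rw [this, div_le_iff₀ hNr]
    rw [div_le_iff₀ hε] at hNlow
    linarith
  have e2 : s * (4 * (C / 2 ^ m)) ≤ ε / 8 := by
    have : s * (4 * (C / 2 ^ m)) = 4 * s * C / 2 ^ m := by ring
    rw [this, div_le_iff₀ (by positivity)]
    rw [div_le_iff₀ hε] at hmlow
    linarith
  have e3 : s * (4 * (Real.log d / (2 * q * τ))) ≤ ε / 8 := by
    have : s * (4 * (Real.log d / (2 * q * τ))) = 2 * s * Real.log d / (q * τ) := by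
      field_simp; ring
    rw [this, div_le_iff₀ (by positivity)]
    rw [div_le_iff₀ (by positivity)] at hqlow
    nlinarith
  have e4 : s * (2 / M) ≤ ε / 8 := by
    have : s * (2 / M) = 2 * s / M := by ring
    rw [this, div_le_iff₀ hMr]
    rw [div_le_iff₀ hε] at hMlow
    linarith
  calc 4 * ((r + 2 : ℝ) / N) + √(Fintype.card (R → Fin d)) *
        (4 * (8 * r / N + C / 2 ^ m + Real.log d / (2 * q * τ)) + 2 / M)
      ≤ 4 * ((r + 2 : ℝ) / N) + s *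
        (4 * (8 * r / N + C / 2 ^ m + Real.log d / (2 * q * τ)) + 2 / M) := by
        have := mul_le_mul_of_nonneg_right hsq hbr
        linarith
    _ = (4 * ((r + 2 : ℝ) / N) + s * (4 * (8 * r / N))) + s * (4 * (C / 2 ^ m)) +
        s * (4 * (Real.log d / (2 * q * τ))) + s * (2 / M) := by ring
    _ ≤ ε / 2 := by linarith

/-- Marginals of translation invariant states are approximated with bond dimension
`exp (C / ε)`. -/
theorem core_pow₁ (d r κ : ℕ) (hr : 1 ≤ r) (hκ : 1 ≤ κ) (hE : PowNet d r κ) :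
    ∃ C : ℝ, 0 ≤ C ∧ CoreBound d r (fun ε => Real.exp (C / ε)) := by
  rcases Nat.lt_or_ge 1 d with hd | hd
  · obtain ⟨C, hC, hcore⟩ := core_params5 d r κ hr hd hκ hE
    refine ⟨C, hC, ?_⟩
    have h : (fun ε : ℝ => Real.exp (C / ε)) = (fun ε => Real.exp (C * (1 / ε))) := by
      funext ε
      congr 1
      ring
    rw [h]
    exact hcore
  · refine ⟨0, le_rfl, ?_⟩
    intro ε hε hε1
    refine ⟨r, r, fun R a b hR => ⟨1, by simp, ?_⟩⟩
    intro L₁ _ hL₁ ψ hψ hTI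
    obtain ⟨B, hB⟩ := core_trivial d hd R r hr a b hR L₁ hL₁ ψ hψ
    refine ⟨B, fun L _ hL => ?_⟩
    obtain ⟨h3, h4⟩ := hB L hL
    exact ⟨h3, fun v => (h4 v).trans (by positivity)⟩

end params2

end Pool.Agent.Hhelper96.PEPS
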