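import Pool.Agent.Hhelper96.UB.Quasi4
import Pool.Agent.Hhelper96.UB.AM.ThermNum5
import Pool.Agent.Hhelper17.AM.Content5

/-!
Bond dimension from the free energy of one torus, amortized labels.
-/

set_option autoImplicit false
set_option linter.unusedSectionVars false

open scoped BigOperators Topology ComplexOrder
open Matrix Filter
open Pool.Agent.Hhelper17.AM

namespace Pool.Agent.Hhelper96.PEPS

section therm

variable {d : ℕ}

theorem therm_crit5 {zr on : Fin d} (hzo : zr ≠ on) {W R : Finset (ℤ × ℤ)} {r : ℕ} (hr : 1 ≤ r)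
    (a b : ℤ) (hW : ∀ p ∈ W, a ≤ p.1 ∧ p.1 < a + r ∧ b ≤ p.2 ∧ p.2 < b + r)
    (hR : ∀ p ∈ R, a ≤ p.1 ∧ p.1 < a + r ∧ b ≤ p.2 ∧ p.2 < b + r)
    (g : Matrix (W → Fin d) (W → Fin d) ℂ) (hg : g.IsHermitian)
    (ψ : ∀ n : ℕ, (Site (n + 1) → Fin d) → ℂ)
    (hψ : ∀ᶠ n in atTop, ψ n ≠ 0 ∧ (∀ w, reduced (n + 1) W w (ψ n) = reduced (n + 1) W 0 (ψ n)) ∧
      (∀ w, reduced (n + 1) R w (ψ n) = reduced (n + 1) R 0 (ψ n)))
    (hsec : ∀ x i j, SecOrdW W R g (dirM x i j) ψ) (κ : ℕ)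
    (hE : PowNet d r κ) :
    ∃ B : ℝ, 1 ≤ B ∧ ∀ ε : ℝ, 0 < ε → ε ≤ 1 → ∀ (N : ℕ) [NeZero N], B / ε ^ 2 ≤ N →
      ∀ β : ℝ, 1 ≤ β → ∀ (hH : (hamiltonian N W g).IsHermitian) (φ : (Site N → Fin d) → ℂ),
      φ ≠ 0 → Real.log (∑ j, Real.exp (-(β * hH.eigenvalues j))) +
        β * (ex (hamiltonian N W g) φ / sqn φ) ≤ β * (ε ^ 2 / B * (N : ℝ) ^ 2) →
      ∃ D : ℕ, (D : ℝ) ≤ Real.exp (B * (β + Real.log (2 * N))) ∧
        ∃ T : Fin d → Fin D → Fin D → Fin D → Fin D → ℂ,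
        (∀ᶠ n in atTop, pepsVec (n + 1) T ≠ 0) ∧
        ∀ᶠ n in atTop, ∀ v : Site (n + 1),
          traceNorm (reduced (n + 1) R v (ψ n) - reduced (n + 1) R v (pepsVec (n + 1) T)) ≤ ε := by
  classical
  have hd : 1 ≤ d := by
    rcases Nat.eq_zero_or_pos d with h | h
    · subst h; exact zr.elim0
    · exact h
  obtain ⟨c, hc1, hgc, hcb⟩ := exists_enf_bound g
  obtain ⟨B, hB, hmain⟩ := e2m_main hzo hr a b hW hR g ψ hψ hsec
  obtain ⟨τ, C₁, hτ, hC₁, hth⟩ := thermal_content5 (d := d) r κ hr hd hE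
  have hc0 : 0 < c := by linarith
  obtain ⟨K, hK0, hnum⟩ := therm_num5 κ (C₁ * c) (c / τ) (by positivity) (by positivity)
  have hB2 : 0 ≤ B ^ 2 := by positivity
  have hr0R : (0 : ℝ) ≤ r := Nat.cast_nonneg _
  obtain ⟨B', hB'⟩ : ∃ B' : ℝ, B' = 3 * B ^ 2 + r + K + 1 := ⟨_, rfl⟩
  have hB'1 : 1 ≤ B' := by rw [hB']; linarith
  have hB'0 : 0 < B' := by linarith
  refine ⟨B', hB'1, ?_⟩
  intro ε hε hε1 N _ hN β hβ hH φ hφ hF
  have hε2 : 0 < ε ^ 2 := by positivity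
  have hε21 : ε ^ 2 ≤ 1 := pow_le_one₀ hε.le hε1
  have hNX : B' ≤ N := by
    refine le_trans ?_ hN
    rw [le_div_iff₀ hε2]
    exact mul_le_of_le_one_right (by linarith) hε21
  have hNr : r ≤ N := by
    have : (r : ℝ) ≤ N := by rw [hB'] at hNX; linarith
    exact_mod_cast this
  have hNR : (1 : ℝ) ≤ N := by linarith
  have hNpos : (0 : ℝ) < N := by linarith
  have hN1 : 1 ≤ N := by exact_mod_cast hNR
  obtain ⟨m, q, hq, hq1, hm3, hNm, hm, hD⟩ := hnum N hN1 β hβ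
  -- the lowest eigenvalue
  have hne : Nonempty (Site N → Fin d) := ⟨fun _ => ⟨0, hd⟩⟩
  obtain ⟨j₀, hj₀⟩ := Finite.exists_min hH.eigenvalues
  obtain ⟨E₀, hE₀⟩ : ∃ E₀, E₀ = hH.eigenvalues j₀ := ⟨_, rfl⟩
  have hEmin : ∀ j, E₀ ≤ hH.eigenvalues j := by rw [hE₀]; exact hj₀
  have hEform : ∀ χ, E₀ * sqn χ ≤ ex (hamiltonian N W g) χ := by
    intro χ
    obtain ⟨z, h1, h2⟩ := exists_form_sum hH χ
    rw [h1, h2, Finset.mul_sum]
    exact Finset.sum_le_sum (fun i _ => mul_le_mul_of_nonneg_right (hEmin i) (by positivity))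
  obtain ⟨Wt, hWt, hen⟩ := hth N m hNr hm3 hNm W a b hW g hg c hc1 hgc q hq1 E₀
    ⟨j₀, hE₀.symm⟩ hEmin
  -- the partition function
  obtain ⟨bq, hbq⟩ : ∃ bq : ℝ, bq = q * τ / c := ⟨_, rfl⟩
  have hβ0 : 0 < β := by linarith
  have hbq1 : β ≤ bq := by
    rw [hbq, le_div_iff₀ hc0]
    have e1 : c / τ * β * τ ≤ q * τ := mul_le_mul_of_nonneg_right hq hτ.le
    have e2 : c / τ * β * τ = β * c := by field_simp
    linarith
  have hbq0 : 0 < bq := by linarith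
  rw [← hbq] at hen
  obtain ⟨Z, hZ⟩ : ∃ Z : ℝ, Z = ∑ j, Real.exp (-β * (hH.eigenvalues j - E₀)) := ⟨_, rfl⟩
  have hZ1 : 1 ≤ Z := by
    rw [hZ]
    calc (1 : ℝ) = Real.exp (-β * (hH.eigenvalues j₀ - E₀)) := by
          rw [hE₀, sub_self, mul_zero, Real.exp_zero]
      _ ≤ _ := Finset.single_le_sum (f := fun j => Real.exp (-β * (hH.eigenvalues j - E₀)))
          (fun j _ => (Real.exp_pos _).le) (Finset.mem_univ j₀)
  have hZq : (∑ j, Real.exp (-bq * (hH.eigenvalues j - E₀))) ≤ Z := by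
    rw [hZ]
    refine Finset.sum_le_sum (fun j _ => Real.exp_le_exp.2 ?_)
    have := mul_le_mul_of_nonneg_right hbq1 (sub_nonneg.2 (hEmin j))
    linarith
  have hZq0 : 0 < ∑ j, Real.exp (-bq * (hH.eigenvalues j - E₀)) :=
    Finset.sum_pos (fun j _ => Real.exp_pos _) ⟨j₀, Finset.mem_univ _⟩
  have hlogZ : 0 ≤ Real.log Z := Real.log_nonneg hZ1
  have hlogZ2 : Real.log Z ≤ β * (ε ^ 2 / B' * (N : ℝ) ^ 2) := by
    have e1 : Z = Real.exp (β * E₀) * ∑ j, Real.exp (-(β * hH.eigenvalues j)) := by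
      rw [hZ, Finset.mul_sum]
      refine Finset.sum_congr rfl (fun j _ => ?_)
      rw [← Real.exp_add]
      congr 1
      ring
    have e2 : 0 < ∑ j, Real.exp (-(β * hH.eigenvalues j)) :=
      Finset.sum_pos (fun j _ => Real.exp_pos _) ⟨j₀, Finset.mem_univ _⟩
    rw [e1, Real.log_mul (Real.exp_pos _).ne' e2.ne', Real.log_exp]
    have e3 : E₀ ≤ ex (hamiltonian N W g) φ / sqn φ := by
      rw [le_div_iff₀ (sqn_pos hφ)]
      exact hEform φ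
    have e4 := mul_le_mul_of_nonneg_left e3 hβ0.le
    linarith
  have hlog : Real.log (∑ j, Real.exp (-bq * (hH.eigenvalues j - E₀))) / bq ≤
      ε ^ 2 / B' * (N : ℝ) ^ 2 := by
    rw [div_le_iff₀ hbq0]
    have e1 := Real.log_le_log hZq0 hZq
    have e2 : β * (ε ^ 2 / B' * (N : ℝ) ^ 2) ≤ bq * (ε ^ 2 / B' * (N : ℝ) ^ 2) :=
      mul_le_mul_of_nonneg_right hbq1 (by positivity)
    linarith
  have hmN : C₁ * c * (N : ℝ) ^ 2 / 2 ^ m ≤ (N : ℝ) := by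
    rw [div_le_iff₀ (by positivity)]
    calc C₁ * c * (N : ℝ) ^ 2 = (N : ℝ) * (C₁ * c * (N : ℝ)) := by ring
      _ ≤ (N : ℝ) * 2 ^ m := mul_le_mul_of_nonneg_left hm hNpos.le
  have hη : ∀ χ : (Site N → Fin d) → ℂ, χ ≠ 0 →
      ex (hamiltonian N W g) (netT Wt) / sqn (netT Wt) ≤
        ex (hamiltonian N W g) χ / sqn χ + (1 / (N : ℝ) + ε ^ 2 / B') * (N : ℝ) ^ 2 := by
    intro χ hχ
    have e1 : E₀ ≤ ex (hamiltonian N W g) χ / sqn χ := by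
      rw [le_div_iff₀ (sqn_pos hχ)]
      exact hEform χ
    have e2 : (1 / (N : ℝ) + ε ^ 2 / B') * (N : ℝ) ^ 2 = N + ε ^ 2 / B' * (N : ℝ) ^ 2 := by
      field_simp
    rw [e2]
    linarith
  obtain ⟨D, hDe, T, hT1, hT2⟩ := hmain N hNr (1 / (N : ℝ) + ε ^ 2 / B') (by positivity)
    (Fin (κ ^ (m + q))) Wt hWt hη
  refine ⟨D, ?_, T, hT1, ?_⟩
  · rw [hDe, Fintype.card_fin]
    refine hD.trans ?_
    apply Real.exp_le_exp.2
    have e2 : 0 ≤ Real.log (2 * (N : ℝ)) := Real.log_nonneg (by linarith)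
    have e3 : K ≤ B' := by rw [hB']; linarith
    exact mul_le_mul_of_nonneg_right e3 (by linarith)
  · filter_upwards [hT2] with j hj v
    refine (hj v).trans ?_
    have h1 : B' ≤ (N : ℝ) * ε ^ 2 := by
      have := hN
      rwa [div_le_iff₀ hε2] at this
    have h2 : B ^ 2 * (1 / (N : ℝ) + ε ^ 2 / B' + 1 / (N : ℝ)) ≤ ε ^ 2 := by
      have e1 : 1 / (N : ℝ) ≤ ε ^ 2 / B' := by
        rw [div_le_div_iff₀ hNpos hB'0]
        linarith
      have e2 : 1 / (N : ℝ) + ε ^ 2 / B' + 1 / (N : ℝ) ≤ 3 * (ε ^ 2 / B') := by linarith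
      have e3 := mul_le_mul_of_nonneg_left e2 hB2
      refine e3.trans ?_
      have e4 : B ^ 2 * (3 * (ε ^ 2 / B')) = 3 * B ^ 2 * ε ^ 2 / B' := by ring
      rw [e4, div_le_iff₀ hB'0]
      have e5 : 3 * B ^ 2 ≤ B' := by rw [hB']; linarith
      have := mul_le_mul_of_nonneg_right e5 hε2.le
      linarith
    calc B * √(1 / (N : ℝ) + ε ^ 2 / B' + 1 / (N : ℝ)) =
          √(B ^ 2 * (1 / (N : ℝ) + ε ^ 2 / B' + 1 / (N : ℝ))) := by
          rw [Real.sqrt_mul (by positivity), Real.sqrt_sq hB]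
      _ ≤ √(ε ^ 2) := Real.sqrt_le_sqrt h2
      _ = ε := Real.sqrt_sq hε.le

end therm

end Pool.Agent.Hhelper96.PEPS
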