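import Pool.Agent.Hhelper96.UB.AM.PowMono
import Pool.Agent.Hhelper68.AM.CutNetT

/-!
The amortized interface for all levels and ranges.
-/

set_option autoImplicit false
set_option linter.unusedSectionVars false

open scoped BigOperators
open Matrix

namespace Pool.Agent.Hhelper96.PEPS

open Pool.Agent.Hhelper68.CS Pool.Agent.Hhelper17.AM

theorem powNet_all (d : ℕ) (hd : 1 ≤ d) (r : ℕ) (hr : 1 ≤ r) : ∃ κ : ℕ, 1 ≤ κ ∧ PowNet d r κ :=
  powNet_one_le (Pool.Agent.Hhelper68.AM.powNet hd hr)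

end Pool.Agent.Hhelper96.PEPS
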