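import Pool.Agent.Hhelper96.UB.AM.Fin7
import Pool.Agent.Hhelper17.AM.Global

/-!
The final statement for stable families, with the global approximation.
-/

set_option autoImplicit false
set_option linter.unusedSectionVars false

open scoped BigOperators Topology ComplexOrder
open Matrix Filter MeasureTheory

namespace Pool.Agent.Hhelper96.PEPS

/-- for families whose gap is stable -/
theorem stable_all8 (d r : ℕ) (hr : 1 ≤ r) : ∃ C : ℝ,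
    ∀ (F : Finset (ℤ × ℤ)) (h : Matrix (F → Fin d) (F → Fin d) ℂ), h.IsHermitian →
    ∀ (Δ : ℝ), 0 < Δ → ∀ (ψ : ∀ n : ℕ, (Site (n + 1) → Fin d) → ℂ),
    (∀ᶠ n in atTop, IsGappedGround (hamiltonian (n + 1) F h) Δ (ψ n)) →
    (∀ (R : Finset (ℤ × ℤ)) (a b : ℤ),
    (∀ p ∈ R, a ≤ p.1 ∧ p.1 < a + r ∧ b ≤ p.2 ∧ p.2 < b + r) →
    (∀ k : Matrix (R → Fin d) (R → Fin d) ℂ, k.IsHermitian → ∃ η > 0, ∃ Δ' > 0,
      ∀ᶠ n in atTop, ∀ s ∈ Set.Icc (0 : ℝ) η, ∃ φ : (Site (n + 1) → Fin d) → ℂ,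
        IsGappedGround (hamiltonian (n + 1) F h + (s : ℂ) • hamiltonian (n + 1) R k) Δ' φ) →
    (∀ ε : ℝ, 0 < ε → ε ≤ 1 →
      ∃ D : ℕ, (D : ℝ) ≤ Real.exp (C / ε) ∧
        ∃ A : Fin d → Fin D → Fin D → Fin D → Fin D → ℂ,
        (∀ᶠ n in atTop, pepsVec (n + 1) A ≠ 0) ∧
        ∀ᶠ n in atTop, ∀ v : Site (n + 1),
          traceNorm (reduced (n + 1) R v (ψ n) - reduced (n + 1) R v (pepsVec (n + 1) A)) ≤ ε) ∧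
    (∃ B : ℝ, 0 < B ∧ ∀ ε : ℝ, 0 < ε → ε ≤ 1 → ∀ (N : ℕ) [NeZero N], B / ε ^ 2 ≤ N →
      ∀ β : ℝ, 1 ≤ β → ∀ (hH : (hamiltonian N F h).IsHermitian)
        (φ : (Site N → Fin d) → ℂ), φ ≠ 0 →
      Real.log (∑ j, Real.exp (-(β * hH.eigenvalues j))) +
        β * (ex (hamiltonian N F h) φ / sqn φ) ≤ β * (ε ^ 2 / B * (N : ℝ) ^ 2) →
      ∃ D : ℕ, (D : ℝ) ≤ Real.exp (B * (β + Real.log (2 / ε))) ∧
        ∃ A : Fin d → Fin D → Fin D → Fin D → Fin D → ℂ,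
        (∀ᶠ n in atTop, pepsVec (n + 1) A ≠ 0) ∧
        ∀ᶠ n in atTop, ∀ v : Site (n + 1),
          traceNorm (reduced (n + 1) R v (ψ n) - reduced (n + 1) R v (pepsVec (n + 1) A)) ≤ ε) ∧
    ((∃ α δ : ℝ, 0 < δ ∧ ∀ᶠ n : ℕ in atTop, ∀ E : ℝ,
        (hamiltonian (n + 1) F h).mulVec (ψ n) = (E : ℂ) • ψ n →
        ∀ M : ℝ, ((n + 1 : ℕ) : ℝ) ^ (2 - δ) ≤ M →
        (eigCount (hamiltonian (n + 1) F h) (E + M) : ℝ) ≤ ((n + 1 : ℕ) : ℝ) ^ (α * M)) →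
      ∃ C' : ℝ, ∀ ε : ℝ, 0 < ε → ε ≤ 1 →
        ∃ D : ℕ, (D : ℝ) ≤ (2 / ε) ^ C' ∧
        ∃ A : Fin d → Fin D → Fin D → Fin D → Fin D → ℂ,
        (∀ᶠ n in atTop, pepsVec (n + 1) A ≠ 0) ∧
        ∀ᶠ n in atTop, ∀ v : Site (n + 1),
          traceNorm (reduced (n + 1) R v (ψ n) - reduced (n + 1) R v (pepsVec (n + 1) A)) ≤
            ε)) ∧
    ((∃ α : ℝ, ∀ᶠ n : ℕ in atTop, ∀ E : ℝ,
        (hamiltonian (n + 1) F h).mulVec (ψ n) = (E : ℂ) • ψ n → ∀ M : ℝ, 1 ≤ M →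
        (eigCount (hamiltonian (n + 1) F h) (E + M) : ℝ) ≤ ((n + 1 : ℕ) : ℝ) ^ (α * M)) →
      ∃ C' : ℝ, ∀ᶠ n : ℕ in atTop, ∀ ε : ℝ, 0 < ε → ε ≤ 1 →
        ∃ D : ℕ, (D : ℝ) ≤ (((n + 1 : ℕ) : ℝ) / ε) ^ C' ∧
        ∃ B : Site (n + 1) → Fin d → Fin D → Fin D → Fin D → Fin D → ℂ,
          √(∑ s, ‖sitePepsVec (n + 1) B s - ψ n s‖ ^ 2) ≤ ε * √(∑ s, ‖ψ n s‖ ^ 2)) := by
  obtain ⟨C, hC⟩ := stable_all7 d r hr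
  refine ⟨C, fun F h hh Δ hΔ ψ hψ => ⟨fun R a b hR hst => ?_, ?_⟩⟩
  · obtain ⟨h1, _, h3, h4⟩ := hC F h hh Δ hΔ ψ hψ R a b hR hst
    exact ⟨h1, h3, h4⟩
  · rintro ⟨α, hα⟩
    exact Pool.Agent.Hhelper17.AM.global_of_powNet d (fun hd r hr => powNet_all7 d hd r hr) F h hh
      Δ hΔ ψ hψ α hα

end Pool.Agent.Hhelper96.PEPS
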