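import Pool.Agent.Hhelper96.UB.FE.Quasi6

/-!
Polynomial bounds from the thermal criterion with amortized labels.
-/

set_option autoImplicit false
set_option linter.unusedSectionVars false

open scoped BigOperators Topology ComplexOrder
open Matrix Filter

namespace Pool.Agent.Hhelper96.PEPS

/-- polynomial bounds from the thermal criterion -/
theorem poly_of_therm {d : ℕ} (hd : 1 ≤ d)
    (H : ∀ (N : ℕ) [NeZero N], Matrix (Site N → Fin d) (Site N → Fin d) ℂ)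
    (hHh : ∀ (N : ℕ) [NeZero N], (H N).IsHermitian) (Q : ℕ → ℝ → Prop)
    {B : ℝ} (hB : 0 < B)
    (hth : ∀ ε : ℝ, 0 < ε → ε ≤ 1 → ∀ (N : ℕ) [NeZero N], B / ε ^ 2 ≤ N →
      ∀ β : ℝ, 1 ≤ β → ∀ (hH : (H N).IsHermitian) (φ : (Site N → Fin d) → ℂ), φ ≠ 0 →
      Real.log (∑ j, Real.exp (-(β * hH.eigenvalues j))) + β * (ex (H N) φ / sqn φ) ≤
        β * (ε ^ 2 / B * (N : ℝ) ^ 2) → ∃ D : ℕ, (D : ℝ) ≤ Real.exp (B * (β + Real.log (2 / ε))) ∧ Q D ε)
    (α δ : ℝ) (hδ : 0 < δ)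
    (hcount : ∀ᶠ n : ℕ in atTop, ∀ E : ℝ, (∀ χ, E * sqn χ ≤ ex (H (n + 1)) χ) →
      ∀ M : ℝ, ((n + 1 : ℕ) : ℝ) ^ (2 - δ) ≤ M →
        (eigCount (H (n + 1)) (E + M) : ℝ) ≤ ((n + 1 : ℕ) : ℝ) ^ (α * M)) :
    ∃ C : ℝ, ∀ ε : ℝ, 0 < ε → ε ≤ 1 →
      ∃ D : ℕ, (D : ℝ) ≤ (2 / ε) ^ C ∧ Q D ε := by
  obtain ⟨n₀, hn₀⟩ := eventually_atTop.1 hcount
  obtain ⟨a, ha⟩ : ∃ a : ℝ, a = max α 0 := ⟨_, rfl⟩
  have ha0 : 0 ≤ a := by rw [ha]; exact le_max_right _ _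
  have haα : α ≤ a := by rw [ha]; exact le_max_left _ _
  obtain ⟨X, hX⟩ : ∃ X : ℝ, X = B + n₀ + 3 := ⟨_, rfl⟩
  have hn0R : (0 : ℝ) ≤ n₀ := Nat.cast_nonneg _
  have hX1 : 1 ≤ X := by rw [hX]; linarith
  obtain ⟨δ', hδ'⟩ : ∃ δ' : ℝ, δ' = min δ 1 := ⟨_, rfl⟩
  have hδ'0 : 0 < δ' := by rw [hδ']; exact lt_min hδ one_pos
  have hδ'1 : δ' ≤ 1 := by rw [hδ']; exact min_le_right _ _
  have hδ'2 : δ' ≤ δ := by rw [hδ']; exact min_le_left _ _
  have hinv : 1 ≤ 1 / δ' := by rw [le_div_iff₀ hδ'0]; linarith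
  obtain ⟨cN, hcN⟩ : ∃ cN : ℝ, cN = 1 / δ' * (2 * Real.log X + 2) + 2 := ⟨_, rfl⟩
  have hX20 : 0 ≤ Real.log X := Real.log_nonneg hX1
  have hcN0 : 0 ≤ cN := by rw [hcN]; positivity
  refine ⟨B * ((a + 1) * cN + 3), ?_⟩
  intro ε hε hε1
  obtain ⟨l, hl⟩ : ∃ l : ℝ, l = Real.log (2 / ε) := ⟨_, rfl⟩
  have hl2 : Real.log 2 ≤ l := by
    rw [hl]
    apply Real.log_le_log (by norm_num)
    rw [le_div_iff₀ hε]
    linarith
  have hlhalf : 1 / 2 ≤ l := by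
    have := Real.log_two_gt_d9
    linarith
  have hl0 : 0 ≤ l := by linarith
  have hle : -Real.log ε ≤ l := by
    rw [hl, Real.log_div (by norm_num) hε.ne']
    have := Real.log_two_gt_d9
    linarith
  have hε2 : 0 < ε ^ 2 := by positivity
  have hε21 : ε ^ 2 ≤ 1 := pow_le_one₀ hε.le hε1
  have hXε : 1 ≤ X / ε ^ 2 := by
    rw [le_div_iff₀ hε2]
    linarith
  have hXε0 : 0 < X / ε ^ 2 := by linarith
  obtain ⟨V, hV⟩ : ∃ V : ℝ, V = (X / ε ^ 2) ^ (1 / δ') := ⟨_, rfl⟩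
  have hVX : X / ε ^ 2 ≤ V := by
    rw [hV]
    calc X / ε ^ 2 = (X / ε ^ 2) ^ (1 : ℝ) := (Real.rpow_one _).symm
      _ ≤ _ := Real.rpow_le_rpow_of_exponent_le hXε hinv
  have hV1 : 1 ≤ V := hXε.trans hVX
  have hV0 : 0 < V := by linarith
  obtain ⟨N, hN⟩ : ∃ N : ℕ, N = ⌈V⌉₊ := ⟨_, rfl⟩
  have hNV : V ≤ N := by rw [hN]; exact Nat.le_ceil _
  have hN1 : X / ε ^ 2 ≤ N := hVX.trans hNV
  have hXN : X ≤ X / ε ^ 2 := by
    rw [le_div_iff₀ hε2]
    exact mul_le_of_le_one_right (by linarith) hε21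
  have hN2 : (N : ℝ) ≤ 2 * V := by
    have e1 := (Nat.ceil_lt_add_one hV0.le).le
    rw [← hN] at e1
    linarith
  have hN3 : (3 : ℝ) ≤ N := by rw [hX] at hXN hN1; linarith
  have hNpos : (0 : ℝ) < N := by linarith
  have hNn : n₀ + 1 ≤ N := by
    have : (n₀ : ℝ) + 1 ≤ N := by rw [hX] at hXN hN1; linarith
    exact_mod_cast this
  have hNδ : X / ε ^ 2 ≤ (N : ℝ) ^ δ' := by
    calc X / ε ^ 2 = V ^ δ' := by
          rw [hV, ← Real.rpow_mul hXε0.le, one_div_mul_cancel hδ'0.ne', Real.rpow_one]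
      _ ≤ (N : ℝ) ^ δ' := Real.rpow_le_rpow hV0.le hNV hδ'0.le
  have hNl : Real.log N ≤ cN * l := by
    have e1 : Real.log N ≤ Real.log (2 * V) := Real.log_le_log hNpos hN2
    rw [Real.log_mul (by norm_num) hV0.ne', hV, Real.log_rpow hXε0,
      Real.log_div (by positivity) hε2.ne', Real.log_pow] at e1
    push_cast at e1
    have e3 := le_two_mul_half hX20 hlhalf
    have e5 : Real.log X - 2 * Real.log ε ≤ (2 * Real.log X + 2) * l := by
      have e4 : (2 * Real.log X + 2) * l = 2 * Real.log X * l + 2 * l := by ring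
      rw [e4]
      linarith
    have e6 := mul_le_mul_of_nonneg_left e5 (by linarith : 0 ≤ 1 / δ')
    rw [hcN]
    have e4 : (1 / δ' * (2 * Real.log X + 2) + 2) * l =
        1 / δ' * ((2 * Real.log X + 2) * l) + 2 * l := by ring
    rw [e4]
    linarith
  have hlN0 : 0 ≤ Real.log N := Real.log_nonneg (by linarith)
  have : NeZero N := ⟨by
    rintro rfl
    simp at hNpos⟩
  obtain ⟨n, rfl⟩ : ∃ n, N = n + 1 := ⟨N - 1, by omega⟩
  have hne : Nonempty (Site (n + 1) → Fin d) := ⟨fun _ => ⟨0, hd⟩⟩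
  have hHe := hHh (n + 1)
  obtain ⟨E, φ, hφ, hEeig, hE⟩ := exists_lowest hHe
  have hEφ : ex (H (n + 1)) φ / sqn φ = E := by
    rw [ex_of_eigen hEeig, mul_div_assoc, div_self (sqn_pos hφ).ne', mul_one]
  have hmin : ∀ j, E ≤ hHe.eigenvalues j := by
    intro j
    obtain ⟨v, hv⟩ : ∃ v : (Site (n + 1) → Fin d) → ℂ, v = ⇑(hHe.eigenvectorBasis j) := ⟨_, rfl⟩
    have hv0 : v ≠ 0 := by
      intro h0
      have h1 := hHe.eigenvectorBasis.orthonormal.ne_zero j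
      apply h1
      ext k
      have := congrFun (hv ▸ h0 : ⇑(hHe.eigenvectorBasis j) = 0) k
      exact this
    have hev : (H (n + 1)).mulVec v = ((hHe.eigenvalues j : ℝ) : ℂ) • v := by
      rw [hv]
      have := hHe.mulVec_eigenvectorBasis j
      rw [this]
      rfl
    have h1 := hE v
    rw [ex_of_eigen hev] at h1
    exact le_of_mul_le_mul_right h1 (sqn_pos hv0)
  obtain ⟨β, hβd⟩ : ∃ β : ℝ, β = (a + 1) * Real.log ((n + 1 : ℕ) : ℝ) + 1 := ⟨_, rfl⟩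
  have hβ1 : 1 ≤ β := by
    have : 0 ≤ (a + 1) * Real.log ((n + 1 : ℕ) : ℝ) := by positivity
    linarith
  have hβ0 : 0 < β := by linarith
  obtain ⟨w, hw⟩ : ∃ w : ℝ, w = ((n + 1 : ℕ) : ℝ) ^ (2 - δ') := ⟨_, rfl⟩
  have hw1 : 1 ≤ w := by
    rw [hw]
    exact Real.one_le_rpow (by linarith) (by linarith)
  have hw2 : ((n + 1 : ℕ) : ℝ) ^ (2 - δ) ≤ w := by
    rw [hw]
    exact Real.rpow_le_rpow_of_exponent_le (by linarith) (by linarith)
  have hcnt := count_sum_w hHe (P := ((n + 1 : ℕ) : ℝ)) (a := a) (w := w)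
    (E₀ := E) (by linarith) ha0 hw1 hmin (fun M hM => by
    refine (hn₀ n (by omega) E hE M (hw2.trans hM)).trans ?_
    apply Real.rpow_le_rpow_of_exponent_le (by linarith)
    exact mul_le_mul_of_nonneg_right haα (by linarith)) (b := β) (by rw [hβd]; linarith)
  have hlogZ : Real.log (∑ j, Real.exp (-(β * hHe.eigenvalues j))) + β * E ≤
      β * w := by
    have e1 : ∑ j, Real.exp (-β * (hHe.eigenvalues j - E)) =
        Real.exp (β * E) * ∑ j, Real.exp (-(β * hHe.eigenvalues j)) := by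
      rw [Finset.mul_sum]
      refine Finset.sum_congr rfl (fun j _ => ?_)
      rw [← Real.exp_add]
      congr 1
      ring
    have e2 : 0 < ∑ j, Real.exp (-(β * hHe.eigenvalues j)) :=
      Finset.sum_pos (fun j _ => Real.exp_pos _) Finset.univ_nonempty
    rw [e1, Real.log_mul (Real.exp_pos _).ne' e2.ne', Real.log_exp] at hcnt
    have e3 : (a + 1) * w * Real.log ((n + 1 : ℕ) : ℝ) ≤ β * w := by
      rw [hβd]
      have e4 : ((a + 1) * Real.log ((n + 1 : ℕ) : ℝ) + 1) * w =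
          (a + 1) * w * Real.log ((n + 1 : ℕ) : ℝ) + w := by ring
      rw [e4]
      linarith
    linarith
  obtain ⟨D, hD, hQ⟩ := hth ε hε hε1 (n + 1) (by
    refine le_trans ?_ hN1
    exact div_le_div_of_nonneg_right (by rw [hX]; linarith) hε2.le) β hβ1 hHe φ hφ (by
    rw [hEφ]
    refine hlogZ.trans (mul_le_mul_of_nonneg_left ?_ hβ0.le)
    have e1 : B ≤ ε ^ 2 * ((n + 1 : ℕ) : ℝ) ^ δ' := by
      have e2 : X ≤ ((n + 1 : ℕ) : ℝ) ^ δ' * ε ^ 2 := by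
        rw [div_le_iff₀ hε2] at hNδ
        exact hNδ
      have e3 : B ≤ X := by rw [hX]; linarith
      linarith
    have e5 : ((n + 1 : ℕ) : ℝ) ^ 2 = ((n + 1 : ℕ) : ℝ) ^ δ' * w := by
      rw [hw, ← Real.rpow_add hNpos, ← Real.rpow_natCast]
      congr 1
      push_cast
      ring
    have e4 : ε ^ 2 / B * ((n + 1 : ℕ) : ℝ) ^ 2 =
        ε ^ 2 * ((n + 1 : ℕ) : ℝ) ^ δ' * w / B := by rw [e5]; ring
    rw [e4, le_div_iff₀ hB]
    have := mul_le_mul_of_nonneg_right e1 (by linarith : 0 ≤ w)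
    linarith)
  refine ⟨D, hD.trans ?_, hQ⟩
  rw [Real.rpow_def_of_pos (by positivity), ← hl]
  apply Real.exp_le_exp.2
  have e1 : β ≤ ((a + 1) * cN + 2) * l := by
    rw [hβd]
    have e2 := mul_le_mul_of_nonneg_left hNl (by linarith : 0 ≤ a + 1)
    have e3 : ((a + 1) * cN + 2) * l = (a + 1) * (cN * l) + 2 * l := by ring
    rw [e3]
    linarith
  have e2 : β + l ≤ ((a + 1) * cN + 3) * l := by
    have e3 : ((a + 1) * cN + 3) * l = ((a + 1) * cN + 2) * l + l := by ring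
    rw [e3]
    linarith
  have e3 := mul_le_mul_of_nonneg_left e2 hB.le
  calc B * (β + l) ≤ B * (((a + 1) * cN + 3) * l) := e3
    _ = l * (B * ((a + 1) * cN + 3)) := by ring

end Pool.Agent.Hhelper96.PEPS
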