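import Pool.Agent.Hhelper17.AM.Defs

/-!
Monotonicity of the amortized interface in the constant.
-/

set_option autoImplicit false
set_option linter.unusedSectionVars false

open scoped BigOperators
open Matrix

namespace Pool.Agent.Hhelper96.PEPS

open Pool.Agent.Hhelper68.CS Pool.Agent.Hhelper17.AM

theorem powNet_mono {d r κ κ' : ℕ} (h : PowNet d r κ) (hκ : κ ≤ κ') : PowNet d r κ' := by
  obtain ⟨τ, C, hτ, hC, h⟩ := h
  refine ⟨τ, C, hτ, hC, ?_⟩
  intro N m q _ hrN hm3 hNm hq R a b hR K hK hK1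
  obtain ⟨q', T, G, h1, h2, h3, h4, h5⟩ := h N m q hrN hm3 hNm hq R a b hR K hK hK1
  exact ⟨q', T, G, h1, h2, h3, h4.mono (Nat.pow_le_pow_left hκ _), h5⟩

theorem powNet_one_le {d r : ℕ} (h : ∃ κ, PowNet d r κ) : ∃ κ, 1 ≤ κ ∧ PowNet d r κ := by
  obtain ⟨κ, h⟩ := h
  exact ⟨max κ 1, le_max_right _ _, powNet_mono h (le_max_left _ _)⟩

end Pool.Agent.Hhelper96.PEPS
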